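import Pool.Agent.Helper83.EIN2.Goals

/-!
# Packet MMZ (MP_06d934_gt, project EIN2): the zeros of the chart `MM` at `t = 0`.
-/

set_option autoImplicit false

namespace Pool.Agent.Helper54.EIN2

open Pool.Agent.Helper83.EIN2

/-- The twelve equations at `t = 0`. -/
def Eqs (a β : ℝ) (p : Fin 12 → ℝ) : Prop :=
  ((1 - β) * p 3 + β * p 2 = (1 - β) * p 4 - p 2) ∧
  ((1 - β) * p 3 + β * p 2 = β * p 4 - p 3) ∧
  ((1 - (1 - a) * p 0) * p 2 + (1 + (1 - a) * p 0) * p 3 + p 2 * p 3 = p 4 - (1 - a) * p 1) ∧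
  ((1 + a * p 0) * p 2 + (1 - a * p 0) * p 3 + p 2 * p 3 = p 4 - a * (p 10 + p 11 - p 1)) ∧
  ((1 - β) * p 6 + β * p 5 + (1 - a) * p 1 - a * (p 10 + p 11 - p 1) =
    -p 0 * p 4 + (1 - β) * p 7 - p 5) ∧
  ((1 - β) * p 6 + β * p 5 + (1 - a) * p 1 - a * (p 10 + p 11 - p 1) =
    p 0 * p 4 + β * p 7 - p 6) ∧
  (-(a * p 10) + (1 - β) * p 6 = (β * p 8 + (1 - β) * p 9) * p 0 - β * p 8) ∧
  (-(a * p 11) + β * p 5 = -(β * p 8 + (1 - β) * p 9) * p 0 - (1 - β) * p 9) ∧
  (1 - p 0 ^ 2 = 2 * β ^ 2 * p 8) ∧ (1 - p 0 ^ 2 = 2 * (1 - β) ^ 2 * p 9) ∧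
  (p 10 = 2 * β * p 8) ∧ (p 11 = 2 * (1 - β) * p 9)

theorem zero_iff (a β : ℝ) (p : Fin 12 → ℝ) : FMM a β 0 p = 0 ↔ Eqs a β p := by
  unfold Eqs
  constructor
  · intro h
    have h0 := congrFun h 0
    have h1 := congrFun h 1
    have h2 := congrFun h 2
    have h3 := congrFun h 3
    have h4 := congrFun h 4
    have h5 := congrFun h 5
    have h6 := congrFun h 6
    have h7 := congrFun h 7
    have h8 := congrFun h 8
    have h9 := congrFun h 9
    have h10 := congrFun h 10
    have h11 := congrFun h 11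
    simp [FMM, lenMM] at h0 h1 h2 h3 h4 h5 h6 h7 h8 h9 h10 h11
    refine ⟨?_, ?_, ?_, ?_, ?_, ?_, ?_, ?_, ?_, ?_, ?_, ?_⟩
    · linear_combination h0
    · linear_combination h1
    · linear_combination h2
    · linear_combination h3
    · linear_combination h4
    · linear_combination h5
    · linear_combination h6
    · linear_combination h7
    · linear_combination h8
    · linear_combination h9
    · linear_combination h10
    · linear_combination h11
  · rintro ⟨h0, h1, h2, h3, h4, h5, h6, h7, h8, h9, h10, h11⟩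
    funext i
    fin_cases i
    · simp [FMM, lenMM]; linear_combination h0
    · simp [FMM, lenMM]; linear_combination h1
    · simp [FMM, lenMM]; linear_combination h2
    · simp [FMM, lenMM]; linear_combination h3
    · simp [FMM, lenMM]; linear_combination h4
    · simp [FMM, lenMM]; linear_combination h5
    · simp [FMM, lenMM]; linear_combination h6
    · simp [FMM, lenMM]; linear_combination h7
    · simp [FMM, lenMM]; linear_combination h8
    · simp [FMM, lenMM]; linear_combination h9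
    · simp [FMM, lenMM]; linear_combination h10
    · simp [FMM, lenMM]; linear_combination h11


/-- From the equations to the parametrisation. -/
theorem fwd (a β : ℝ) (hβ0 : 0 < β) (hβ1 : β < 1) (p : Fin 12 → ℝ) (h : Eqs a β p) :
    ∃ s e, p = zMM a β s e ∧ β * (1 - β) * (e ^ 2 - 2 * e) + a * (1 - a) * (1 - s ^ 2) = 0 ∧
      (1 - s ^ 2) * (s - (1 - 2 * β) * (1 - 2 * a)) = 4 * β * (1 - β) * s * e := by
  obtain ⟨h0, h1, h2, h3, h4, h5, h6, h7, h8, h9, h10, h11⟩ := h
  have hb : β ≠ 0 := hβ0.ne'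
  have hg : (1 - β) ≠ 0 := by linarith
  obtain ⟨e, he⟩ : ∃ e, e = (1 - β) * p 3 + β * p 2 := ⟨_, rfl⟩
  obtain ⟨s, hs⟩ : ∃ s, s = p 0 := ⟨_, rfl⟩
  rw [← he] at h0 h1
  rw [← hs] at h2 h3 h4 h5 h6 h7 h8 h9
  have q4 : p 4 = e / (β * (1 - β)) := by
    rw [eq_div_iff (by positivity)]
    linear_combination (-β / 2) * h0 - ((1 - β) / 2) * h1 - he / 2
  have q2 : p 2 = e * (1 - β) / β := by
    rw [eq_div_iff hb]
    rw [q4] at h0
    field_simp at h0
    linear_combination h0
  have q3 : p 3 = e * β / (1 - β) := by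
    rw [eq_div_iff hg]
    rw [q4] at h1
    field_simp at h1
    linear_combination h1
  have q8 : p 8 = (1 - s ^ 2) / (2 * β ^ 2) := by
    rw [eq_div_iff (by positivity)]; linear_combination -h8
  have q9 : p 9 = (1 - s ^ 2) / (2 * (1 - β) ^ 2) := by
    rw [eq_div_iff (by positivity)]; linear_combination -h9
  have q10 : p 10 = (1 - s ^ 2) / β := by
    rw [h10, q8]; field_simp
  have q11 : p 11 = (1 - s ^ 2) / (1 - β) := by
    rw [h11, q9]; field_simp
  have b8 : β * p 8 = (1 - s ^ 2) / (2 * β) := by rw [q8]; field_simp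
  have b9 : (1 - β) * p 9 = (1 - s ^ 2) / (2 * (1 - β)) := by rw [q9]; field_simp
  have q1 : p 1 = 2 * a * ((1 - s ^ 2) / (2 * β * (1 - β))) + s * e * ((1 - β - β) / (β * (1 - β))) := by
    have : p 1 = s * (p 2 - p 3) + a * (p 10 + p 11) := by linear_combination h2 - h3
    rw [this, q2, q3, q10, q11]
    field_simp
    ring
  have q6 : p 6 = ((1 - s ^ 2) / (2 * β * (1 - β)) * s - (1 - a - a) * (1 - s ^ 2) / (2 * β)) / (1 - β) := by
    rw [eq_div_iff hg]
    have : p 6 * (1 - β) = (β * p 8 + (1 - β) * p 9) * s - β * p 8 + a * p 10 := by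
      linear_combination h6
    rw [this, b8, b9, q10]
    field_simp
    ring
  have q5 : p 5 = (-((1 - s ^ 2) / (2 * β * (1 - β)) * s) - (1 - a - a) * (1 - s ^ 2) / (2 * (1 - β))) / β := by
    rw [eq_div_iff hb]
    have : p 5 * β = -(β * p 8 + (1 - β) * p 9) * s - (1 - β) * p 9 + a * p 11 := by
      linear_combination h7
    rw [this, b8, b9, q11]
    field_simp
    ring
  have hX : (1 - β) * p 6 + β * p 5 + (1 - a) * p 1 - a * (p 10 + p 11 - p 1) =
      -((1 - a - a) * ((1 - s ^ 2) / (2 * β * (1 - β)))) + s * e * ((1 - β - β) / (β * (1 - β))) := by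
    rw [q1, q5, q6, q10, q11]
    field_simp
    ring
  have q7 : p 7 = (-((1 - a - a) * ((1 - s ^ 2) / (2 * β * (1 - β)))) +
      s * e * ((1 - β - β) / (β * (1 - β))) + s * (e / (β * (1 - β))) +
      (-((1 - s ^ 2) / (2 * β * (1 - β)) * s) - (1 - a - a) * (1 - s ^ 2) / (2 * (1 - β))) / β) /
        (1 - β) := by
    rw [eq_div_iff hg, ← q5, ← q4, ← hX]
    linear_combination -h4
  refine ⟨s, e, ?_, ?_, ?_⟩
  · funext i
    fin_cases i
    · simp [zMM, hs]
    · simp [zMM]; exact q1
    · simp [zMM]; exact q2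
    · simp [zMM]; exact q3
    · simp [zMM]; exact q4
    · simp [zMM]; exact q5
    · simp [zMM]; exact q6
    · simp [zMM]; exact q7
    · simp [zMM]; exact q8
    · simp [zMM]; exact q9
    · simp [zMM]; exact q10
    · simp [zMM]; exact q11
  · rw [q1, q2, q3, q4] at h2
    field_simp at h2
    linear_combination h2
  · rw [hX, q4, q7, q6] at h5
    field_simp at h5
    linear_combination h5 / 2


/-- From the parametrisation to the equations. -/
theorem bwd (a β : ℝ) (hβ0 : 0 < β) (hβ1 : β < 1) (s e : ℝ)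
    (h1 : β * (1 - β) * (e ^ 2 - 2 * e) + a * (1 - a) * (1 - s ^ 2) = 0)
    (h2 : (1 - s ^ 2) * (s - (1 - 2 * β) * (1 - 2 * a)) = 4 * β * (1 - β) * s * e) :
    Eqs a β (zMM a β s e) := by
  have hb : β ≠ 0 := hβ0.ne'
  have hg : (1 - β) ≠ 0 := by linarith
  refine ⟨?_, ?_, ?_, ?_, ?_, ?_, ?_, ?_, ?_, ?_, ?_, ?_⟩
  · simp [zMM]
    field_simp
    ring
  · simp [zMM]
    field_simp
    ring
  · simp [zMM]
    field_simp
    linear_combination h1
  · simp [zMM]
    field_simp
    linear_combination h1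
  · simp [zMM]
    field_simp
    ring
  · simp [zMM]
    field_simp
    linear_combination 2 * h2
  · simp [zMM]
    field_simp
    ring
  · simp [zMM]
    field_simp
    ring
  · simp [zMM]
    field_simp
  · simp [zMM]
    field_simp
  · simp [zMM]
    field_simp
  · simp [zMM]
    field_simp

/-- The solutions of the two polynomial equations. -/
theorem solve (a β : ℝ) (ha0 : 0 < a) (ha1 : a < 1) (hβ0 : 0 < β) (hβ1 : β < 1)
    (hh : a ≠ 1 / 2 ∨ β ≠ 1 / 2) (s e : ℝ) :
    (β * (1 - β) * (e ^ 2 - 2 * e) + a * (1 - a) * (1 - s ^ 2) = 0 ∧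
    (1 - s ^ 2) * (s - (1 - 2 * β) * (1 - 2 * a)) = 4 * β * (1 - β) * s * e) ↔ seMM a β s e := by
  have hb : β ≠ 0 := hβ0.ne'
  have hg : (1 - β) ≠ 0 := by linarith
  have hbg : 0 < β * (1 - β) := mul_pos hβ0 (by linarith)
  have hab : 0 < a * (1 - a) := mul_pos ha0 (by linarith)
  constructor
  · rintro ⟨h1, h2⟩
    have key : (1 - s ^ 2) * ((s ^ 2 - (1 - 2 * β) ^ 2) *
        ((s - (1 - 2 * a) * (1 - 2 * β)) ^ 2 + (1 - 2 * a) ^ 2 * (4 * β * (1 - β)))) = 0 := by
      linear_combination (-16 * β * (1 - β) * s ^ 2) * h1 -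
        ((1 - s ^ 2) * (s - (1 - 2 * β) * (1 - 2 * a)) + 4 * β * (1 - β) * s * e -
          8 * β * (1 - β) * s) * h2
    rcases mul_eq_zero.mp key with hG | hk
    · -- `s = ±1`
      have hs0 : s ≠ 0 := by
        rintro rfl
        norm_num at hG
      rw [hG] at h2
      have he : e = 0 := by
        have h3 : (β * (1 - β)) * (s * e) = 0 := by linear_combination -h2 / 4
        rcases mul_eq_zero.mp h3 with h4 | h4
        · exact absurd h4 hbg.ne'
        · exact (mul_eq_zero.mp h4).resolve_left hs0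
      have hs : (s - 1) * (s + 1) = 0 := by linear_combination -hG
      rcases mul_eq_zero.mp hs with h4 | h4
      · exact Or.inl ⟨by linarith, he⟩
      · exact Or.inr (Or.inl ⟨by linarith, he⟩)
    · rcases mul_eq_zero.mp hk with hk | hk
      · -- `s = ±κ`
        have hs : (s - (1 - 2 * β)) * (s + (1 - 2 * β)) = 0 := by linear_combination hk
        by_cases hκ : (1 - 2 * β) = 0
        · -- `κ = 0`: `s = 0`
          rw [hκ] at hk
          have hs0 : s = 0 := by
            have : s ^ 2 = 0 := by linear_combination hk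
            exact pow_eq_zero_iff (two_ne_zero) |>.mp this
          have hβ : β = 1 / 2 := by linarith
          subst hβ
          subst hs0
          have h3 : (e - 2 * a) * (e - 2 * (1 - a)) = 0 := by linear_combination 4 * h1
          rcases mul_eq_zero.mp h3 with h4 | h4
          · exact Or.inr (Or.inr (Or.inl ⟨by norm_num, by linarith⟩))
          · exact Or.inr (Or.inr (Or.inr ⟨by norm_num, by linarith⟩))
        · rcases mul_eq_zero.mp hs with h4 | h4
          · have h5 : s = 1 - 2 * β := by linarith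
            refine Or.inr (Or.inr (Or.inl ⟨h5, ?_⟩))
            subst h5
            have h6 : (β * (1 - β)) * ((1 - 2 * β) * (e - 2 * a)) = 0 := by
              linear_combination -h2 / 4
            rcases mul_eq_zero.mp h6 with h7 | h7
            · exact absurd h7 hbg.ne'
            · have := (mul_eq_zero.mp h7).resolve_left hκ
              linarith
          · have h5 : s = -(1 - 2 * β) := by linarith
            refine Or.inr (Or.inr (Or.inr ⟨h5, ?_⟩))
            subst h5
            have h6 : (β * (1 - β)) * ((1 - 2 * β) * (e - 2 * (1 - a))) = 0 := by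
              linear_combination h2 / 4
            rcases mul_eq_zero.mp h6 with h7 | h7
            · exact absurd h7 hbg.ne'
            · have := (mul_eq_zero.mp h7).resolve_left hκ
              linarith
      · -- impossible
        exfalso
        have hd : (1 - 2 * a) ^ 2 * (4 * β * (1 - β)) = 0 := by
          nlinarith [sq_nonneg (s - (1 - 2 * a) * (1 - 2 * β)), sq_nonneg (1 - 2 * a),
            mul_nonneg (sq_nonneg (1 - 2 * a)) hbg.le]
        have hd2 : (1 - 2 * a) = 0 := by
          rcases mul_eq_zero.mp hd with h4 | h4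
          · exact pow_eq_zero_iff (two_ne_zero) |>.mp h4
          · exact absurd h4 (by nlinarith)
        rw [hd2] at hk
        have hs0 : s = 0 := by
          have : s ^ 2 = 0 := by linear_combination hk
          exact pow_eq_zero_iff (two_ne_zero) |>.mp this
        subst hs0
        have ha : a = 1 / 2 := by linarith
        subst ha
        have hβ : β ≠ 1 / 2 := by
          rcases hh with h | h
          · exact absurd rfl h
          · exact h
        have h3 : (β * (1 - β)) * (e - 1) ^ 2 = β * (1 - β) - 1 / 4 := by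
          linear_combination h1
        have h4 : β * (1 - β) - 1 / 4 < 0 := by
          have : 0 < (β - 1 / 2) ^ 2 := by
            have : β - 1 / 2 ≠ 0 := fun h ↦ hβ (by linarith)
            positivity
          nlinarith
        have h5 : 0 ≤ (β * (1 - β)) * (e - 1) ^ 2 := by positivity
        linarith
  · rintro (⟨rfl, rfl⟩ | ⟨rfl, rfl⟩ | ⟨rfl, rfl⟩ | ⟨rfl, rfl⟩)
    · constructor <;> ring
    · constructor <;> ring
    · constructor <;> ring
    · constructor <;> ring


theorem zMM_inj (a β : ℝ) (hβ0 : 0 < β) (hβ1 : β < 1) :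
    Function.Injective (fun q : ℝ × ℝ ↦ zMM a β q.1 q.2) := by
  have hbg : 0 < β * (1 - β) := mul_pos hβ0 (by linarith)
  rintro ⟨s, e⟩ ⟨s', e'⟩ h
  have h0 := congrFun h 0
  have h4 := congrFun h 4
  simp only [zMM] at h0 h4
  have h0' : s = s' := by simpa using h0
  have h4' : e / (β * (1 - β)) = e' / (β * (1 - β)) := by simpa using h4
  have h4'' : e = e' := by
    rwa [div_left_inj' hbg.ne'] at h4'
  rw [h0', h4'']

theorem mmz : Pool.Agent.Helper83.EIN2.MMZ := by
  intro a β ha0 ha1 hβ0 hβ1 hh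
  have hbg : 0 < β * (1 - β) := mul_pos hβ0 (by linarith)
  refine ⟨fun p ↦ ?_, ?_⟩
  · rw [zero_iff]
    constructor
    · intro h
      obtain ⟨s, e, hp, h1, h2⟩ := fwd a β hβ0 hβ1 p h
      exact ⟨s, e, (solve a β ha0 ha1 hβ0 hβ1 hh s e).mp ⟨h1, h2⟩, hp⟩
    · rintro ⟨s, e, hse, rfl⟩
      obtain ⟨h1, h2⟩ := (solve a β ha0 ha1 hβ0 hβ1 hh s e).mpr hse
      exact bwd a β hβ0 hβ1 s e h1 h2
  · have hset : {p : Fin 12 → ℝ | ∃ s e, seMM a β s e ∧ p = zMM a β s e} =
        (fun q : ℝ × ℝ ↦ zMM a β q.1 q.2) ''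
          (↑({(1, 0), (-1, 0), (1 - 2 * β, 2 * a), (-(1 - 2 * β), 2 * (1 - a))} : Finset (ℝ × ℝ)) :
            Set (ℝ × ℝ)) := by
      ext p
      constructor
      · rintro ⟨s, e, hse, rfl⟩
        refine ⟨(s, e), ?_, rfl⟩
        rcases hse with ⟨rfl, rfl⟩ | ⟨rfl, rfl⟩ | ⟨rfl, rfl⟩ | ⟨rfl, rfl⟩ <;> simp
      · rintro ⟨⟨s, e⟩, hq, rfl⟩
        refine ⟨s, e, ?_, rfl⟩
        simpa [seMM, Prod.ext_iff] using hq
    rw [hset, Set.ncard_image_of_injective _ (zMM_inj a β hβ0 hβ1), Set.ncard_coe_finset]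
    have hd : (1 - 2 * β = -(1 - 2 * β)) → 2 * a ≠ 2 * (1 - a) := by
      intro h h'
      rcases hh with h1 | h1
      · exact h1 (by linarith)
      · exact h1 (by linarith)
    rw [Finset.card_insert_of_notMem, Finset.card_insert_of_notMem, Finset.card_insert_of_notMem,
      Finset.card_singleton]
    · rw [Finset.mem_singleton, Prod.ext_iff]
      rintro ⟨h1, h2⟩
      exact hd h1 h2
    · rw [Finset.mem_insert, Finset.mem_singleton, Prod.ext_iff, Prod.ext_iff]
      rintro (⟨h1, h2⟩ | ⟨h1, h2⟩)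
      · simp at h2; linarith
      · simp at h2; linarith
    · rw [Finset.mem_insert, Finset.mem_insert, Finset.mem_singleton, Prod.ext_iff, Prod.ext_iff,
        Prod.ext_iff]
      rintro (⟨h1, h2⟩ | ⟨h1, h2⟩ | ⟨h1, h2⟩)
      · norm_num at h1
      · simp at h2; linarith
      · simp at h2; linarith

end Pool.Agent.Helper54.EIN2
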